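import Pool.Agent.R363.LF.Stm

namespace Pool.Agent.R363.LF

open MeasureTheory Finset

/-- The question for a given measure and a given open set. -/
def LusinAt (n k : ℕ) (μ : Measure (E n)) (Ω : Set (E n)) (C : ℝ) : Prop :=
    ∀ ω : E n → Form n (k + 1), StronglyMeasurable ω →
    (∀ᵐ x ∂(μ.restrict Ω), ∀ τ : Form n (k + 1) →L[ℝ] ℝ, InV μ x τ → τ (ω x) = 0) →
    ∀ W : ℝ, (∀ᵐ x ∂(μ.restrict Ω), ‖ω x‖ ≤ W) →
    ∀ ε : ℝ, 0 < ε → ∃ (φ : E n → Form n k) (K : Set (E n)),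
      ContDiffOn ℝ 1 φ Ω ∧ IsCompact K ∧ K ⊆ Ω ∧ μ (Ω \ K) < ENNReal.ofReal ε ∧
      (∀ x ∈ K, extDeriv φ x = ω x) ∧
      ∀ I : Fin k → Fin n, StrictMono I → ∀ x ∈ Ω, ∀ y ∈ Ω,
        |φ x (fun a => EuclideanSpace.single (I a) (1 : ℝ))
          - φ y (fun a => EuclideanSpace.single (I a) (1 : ℝ))| ≤ C * W * ‖x - y‖

theorem Lip.mono' {C D : ℝ} (h : C ≤ D) {p : ℕ → ℕ → ℝ} (hp : Lip C p) : Lip D p :=
  fun i j => ⟨(hp i j).1.trans h, (hp i j).2.trans h⟩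

theorem assemble (hD : S_Disc) (hE1 : S_E1) (hE2 : S_E2) (hT : S_T) (ha : S_V1a) (hb : S_V1b)
    (hc : S_V1c) (hv : S_Vol) (h2 : S_V2) (hq : S_Cube) (k : ℕ) (C : ℝ) :
    ¬ LusinAt (k + 2) (k + 1) ((volume : Measure (E (k + 2))).restrict (cubeE (k + 2)))
      Set.univ C := by
  classical
  intro hQ
  have hN : ∀ N : (E (k + 2) → Form (k + 2) (k + 2)) → ℝ, IsClosedNormal N →
      ∀ ω, IsTest ω → N ω = 0 := by
    intro N hN
    have h1 : ∀ (ω : E (k + 2) → Form (k + 2) (k + 2)) (a : E (k + 2)), IsTest ω →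
        N (fun x => fderiv ℝ ω x a) = 0 := by
      intro ω a hω
      obtain ⟨η, hη, hηd⟩ := ha k ω a hω
      have := hN.closed η hη
      have he : (fun x => extDeriv η x) = (fun x => fderiv ℝ ω x a) := funext hηd
      rw [← he]; exact this
    exact hc k N hN (hb k N hN h1)
  obtain ⟨v, hv1, hv2, -⟩ := hv (k + 2)
  set C0 : ℝ := max C 0 with hC0
  have hC00 : 0 ≤ C0 := le_max_right _ _
  have hC0C : C ≤ C0 := le_max_left _ _
  have hk0 : (0 : ℝ) ≤ (k : ℝ) := Nat.cast_nonneg k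
  have hC1 : 0 ≤ (2 * (k : ℝ) + 1) * C0 := by positivity
  obtain ⟨m, h, c, hm, hh, hc0, hdisc⟩ := hD ((2 * (k : ℝ) + 1) * C0) hC1
  have hmR : (0 : ℝ) < (m : ℝ) := by exact_mod_cast hm
  obtain ⟨hcube1, hcubeO, hcubeK⟩ := hq (k + 2)
  set μ : Measure (E (k + 2)) := (volume : Measure (E (k + 2))).restrict (cubeE (k + 2)) with hμdef
  have hμuniv : μ Set.univ = 1 := by
    rw [hμdef, Measure.restrict_apply MeasurableSet.univ, Set.univ_inter, hcube1]
  have : IsFiniteMeasure μ := ⟨by rw [hμuniv]; exact ENNReal.one_lt_top⟩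
  let ω : E (k + 2) → Form (k + 2) (k + 2) :=
    fun x => h ⌊(m : ℝ) * x 0⌋₊ ⌊(m : ℝ) * x 1⌋₊ • v
  have hωm : StronglyMeasurable ω := by
    have h1 : Measurable (fun x : E (k + 2) => (⌊(m : ℝ) * x 0⌋₊, ⌊(m : ℝ) * x 1⌋₊)) := by
      apply Measurable.prodMk
      · apply Nat.measurable_floor.comp
        exact (((EuclideanSpace.proj (0 : Fin (k + 2)) :
          E (k + 2) →L[ℝ] ℝ).continuous).measurable).const_mul _
      · apply Nat.measurable_floor.comp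
        exact (((EuclideanSpace.proj (1 : Fin (k + 2)) :
          E (k + 2) →L[ℝ] ℝ).continuous).measurable).const_mul _
    have h2 : Measurable (fun t : ℕ × ℕ => h t.1 t.2) := Measurable.of_discrete
    have h3 : Measurable (fun x : E (k + 2) => h ⌊(m : ℝ) * x 0⌋₊ ⌊(m : ℝ) * x 1⌋₊) :=
      h2.comp h1
    exact h3.stronglyMeasurable.smul_const v
  have hωb : ∀ x, ‖ω x‖ ≤ 1 := by
    intro x
    show ‖h ⌊(m : ℝ) * x 0⌋₊ ⌊(m : ℝ) * x 1⌋₊ • v‖ ≤ 1
    rw [norm_smul, Real.norm_eq_abs]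
    calc |h ⌊(m : ℝ) * x 0⌋₊ ⌊(m : ℝ) * x 1⌋₊| * ‖v‖ ≤ 1 * 1 :=
          mul_le_mul (hh _ _) hv1 (norm_nonneg _) zero_le_one
      _ = 1 := one_mul 1
  set D : ℝ := (((k : ℝ) + 2) * C0 + 1) * (m : ℝ) ^ 2 with hDdef
  have hDpos : 0 < D := by positivity
  obtain ⟨φ, K, hφ, hK, -, hμK, hd, hlip⟩ := hQ ω hωm
    (by
      rw [Measure.restrict_univ]
      filter_upwards [hcubeO] with x hx τ hτ
      rw [h2 k hN x hx τ hτ]; rfl)
    1 (Filter.Eventually.of_forall hωb) (c / (2 * D)) (by positivity)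
  rw [contDiffOn_univ] at hφ
  obtain ⟨F, hF, hFL, hFd⟩ := hT k φ C0 hφ (by
    intro I hI x y
    refine (hlip I hI x (Set.mem_univ _) y (Set.mem_univ _)).trans ?_
    rw [mul_one]
    exact mul_le_mul_of_nonneg_right hC0C (norm_nonneg _))
  obtain ⟨p, q, g, hp, hq', hg, hsum⟩ := hE1 k m hm C0 F hF hFL
  have hle1 : C0 ≤ (2 * (k : ℝ) + 1) * C0 := by nlinarith
  have hle2 : 2 * (k : ℝ) * C0 / m ≤ (2 * (k : ℝ) + 1) * C0 / m := by
    apply div_le_div_of_nonneg_right _ hmR.le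
    nlinarith
  obtain ⟨i, j, hi, hj, hcij⟩ := hdisc p q g (hp.mono' hle1) (hq'.mono' hle1) (hg.mono' hle2)
  obtain ⟨hK', hvolK⟩ := hcubeK K hK
  have hE := hE2 k m hm C0 F hF hFL h hh _ hK' (by
    intro x hx _
    rw [hFd x, hd _ hx]
    show (h ⌊(m : ℝ) * x 0⌋₊ ⌊(m : ℝ) * x 1⌋₊ • v) _ = _
    rw [ContinuousAlternatingMap.smul_apply, hv2, smul_eq_mul, mul_one]) i j hi hj
  rw [← hsum i j, hvolK] at hE
  have hμK' : (volume : Measure (E (k + 2))) (cubeE (k + 2) \ K) < ENNReal.ofReal (c / (2 * D)) := by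
    have : μ (Set.univ \ K) = (volume : Measure (E (k + 2))) (cubeE (k + 2) \ K) := by
      rw [hμdef, Measure.restrict_apply (MeasurableSet.univ.diff hK.measurableSet)]
      congr 1
      ext x; simp [and_comm]
    rw [← this]; exact hμK
  have hvr : ((volume : Measure (E (k + 2))) (cubeE (k + 2) \ K)).toReal ≤ c / (2 * D) :=
    ENNReal.toReal_le_of_le_ofReal (by positivity) hμK'.le
  have hfin : c ≤ D * (c / (2 * D)) := by
    refine hcij.trans (hE.trans ?_)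
    exact mul_le_mul_of_nonneg_left hvr hDpos.le
  have : D * (c / (2 * D)) = c / 2 := by
    field_simp
  rw [this] at hfin
  linarith

theorem notQ (hq : S_Cube) (k : ℕ) (C : ℝ)
    (h : ¬ LusinAt (k + 2) (k + 1) ((volume : Measure (E (k + 2))).restrict (cubeE (k + 2)))
      Set.univ C) : ¬ LusinQ (k + 2) (k + 1) C := by
  intro hQ
  obtain ⟨hcube1, -, -⟩ := hq (k + 2)
  have hμuniv : ((volume : Measure (E (k + 2))).restrict (cubeE (k + 2))) Set.univ = 1 := by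
    rw [Measure.restrict_apply MeasurableSet.univ, Set.univ_inter, hcube1]
  have : IsFiniteMeasure ((volume : Measure (E (k + 2))).restrict (cubeE (k + 2))) :=
    ⟨by rw [hμuniv]; exact ENNReal.one_lt_top⟩
  exact h (hQ _ inferInstance Set.univ isOpen_univ (by rw [hμuniv]; exact ENNReal.one_lt_top))

end Pool.Agent.R363.LF
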