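import Pool.Agent.R363.LF.Stm

/-!
Piece D0 (third copy, helper106).
-/

set_option autoImplicit false

namespace Pool.Agent.R363.LF

open MeasureTheory Finset

theorem t_D0_aux (g : ℕ → ℝ) (A L : ℕ) :
    ∑ i ∈ range (L * A), g i = ∑ a ∈ range L, ∑ i ∈ range A, g (a * A + i) := by
  induction L with
  | zero => simp
  | succ L ih =>
    rw [Nat.add_mul, Nat.one_mul, Finset.sum_range_add, ih, Finset.sum_range_succ]

theorem t_D0 : S_D0 := by
  intro f A L
  rw [t_D0_aux]
  refine Finset.sum_congr rfl fun a _ => ?_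
  rw [Finset.sum_comm (s := range L)]
  exact Finset.sum_congr rfl fun i _ => t_D0_aux (fun j => f (a * A + i) j) A L

end Pool.Agent.R363.LF
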