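import Pool.Agent.R363.LF.Stm

/-! Piece D1: the lower bound. -/

set_option autoImplicit false

namespace Pool.Agent.R363.LF

open Finset

theorem D1c_pair (F : ℕ → ℝ) (M : ℕ) :
    ∑ a ∈ range (2 * M), F a = ∑ a ∈ range M, (F (2 * a) + F (2 * a + 1)) := by
  induction M with
  | zero => simp
  | succ M ih =>
    rw [show 2 * (M + 1) = 2 * M + 1 + 1 by ring, sum_range_succ, sum_range_succ, ih,
      sum_range_succ]
    ring

theorem t_D1 (h0 : S_D0) : S_D1 := by
  intro L N hL hLe
  induction N with
  | zero =>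
    intro α h1 h2
    simp [U]
  | succ N ih =>
    intro α hα1 hα0
    obtain ⟨M, hM⟩ : ∃ M, L = 2 * M := ⟨L / 2, by omega⟩
    have hLpos : 0 < L := by omega
    obtain ⟨A, hA⟩ : ∃ A, A = L ^ N := ⟨_, rfl⟩
    have hApos : 0 < A := by rw [hA]; positivity
    have hpow : L ^ (N + 1) = L * A := by rw [hA, pow_succ, mul_comm]
    rw [hpow, h0]
    have hU : ∀ a b i j, i < A → j < A → U L (N + 1) (a * A + i) (b * A + j) =
        if a % 2 = 0 then 1 - 2 * U L N j i else -1 := by
      intro a b i j hi hj
      have e1 : (a * A + i) / A = a := by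
        rw [mul_comm, Nat.mul_add_div hApos, Nat.div_eq_of_lt hi, add_zero]
      have e2 : (a * A + i) % A = i := by
        rw [mul_comm, Nat.mul_add_mod, Nat.mod_eq_of_lt hi]
      have e3 : (b * A + j) % A = j := by
        rw [mul_comm, Nat.mul_add_mod, Nat.mod_eq_of_lt hj]
      simp only [U]
      rw [← hA, e1, e2, e3]
    have hAr : (A : ℝ) = (L : ℝ) ^ N := by rw [hA]; push_cast; ring
    have hA2 : (L : ℝ) ^ (2 * N) = A * A := by rw [hAr, ← pow_add]; congr 1; ring
    have heven : ∀ a b : ℕ, (N : ℝ) * (A * A) ≤ ∑ i ∈ range A, ∑ j ∈ range A,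
        |α + U L (N + 1) (2 * a * A + i) (b * A + j)| := by
      intro a b
      have h1 := ih (-(α + 1) / 2) (by linarith) (by linarith)
      rw [← hA, Finset.sum_comm, hA2] at h1
      have h2 : ∑ i ∈ range A, ∑ j ∈ range A, |α + U L (N + 1) (2 * a * A + i) (b * A + j)|
          = 2 * ∑ i ∈ range A, ∑ j ∈ range A, |-(α + 1) / 2 + U L N j i| := by
        rw [mul_sum]
        refine sum_congr rfl fun i hi => ?_
        rw [mul_sum]
        refine sum_congr rfl fun j hj => ?_
        rw [mem_range] at hi hj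
        have u1 := hU (2 * a) b i j hi hj
        rw [if_pos (by omega)] at u1
        rw [u1]
        have h3 : α + (1 - 2 * U L N j i) = -(2 * (-(α + 1) / 2 + U L N j i)) := by ring
        rw [h3, abs_neg, abs_mul, abs_of_pos (by norm_num : (0 : ℝ) < 2)]
      rw [h2]
      linarith
    have hodd : ∀ a b : ℕ, (A : ℝ) * A ≤ ∑ i ∈ range A, ∑ j ∈ range A,
        |α + U L (N + 1) ((2 * a + 1) * A + i) (b * A + j)| := by
      intro a b
      have h2 : ∀ i ∈ range A, (A : ℝ) ≤ ∑ j ∈ range A,
          |α + U L (N + 1) ((2 * a + 1) * A + i) (b * A + j)| := by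
        intro i hi
        have h4 : ∀ j ∈ range A, (1 : ℝ) ≤ |α + U L (N + 1) ((2 * a + 1) * A + i) (b * A + j)| := by
          intro j hj
          rw [mem_range] at hi hj
          have u1 := hU (2 * a + 1) b i j hi hj
          rw [if_neg (by omega)] at u1
          rw [u1, le_abs]
          right
          linarith
        have := card_nsmul_le_sum _ _ _ h4
        rwa [card_range, nsmul_eq_mul, mul_one] at this
      have := card_nsmul_le_sum _ _ _ h2
      rwa [card_range, nsmul_eq_mul] at this
    obtain ⟨F, hF⟩ : ∃ F : ℕ → ℝ, F = fun a => ∑ b ∈ range L, ∑ i ∈ range A, ∑ j ∈ range A,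
      |α + U L (N + 1) (a * A + i) (b * A + j)| := ⟨_, rfl⟩
    have hFb : ∀ a, (L : ℝ) * (((N : ℝ) + 1) * (A * A)) ≤ F (2 * a) + F (2 * a + 1) := by
      intro a
      rw [hF]
      simp only
      rw [← sum_add_distrib]
      have h2 : ∀ b ∈ range L, ((N : ℝ) + 1) * (A * A) ≤
          (∑ i ∈ range A, ∑ j ∈ range A, |α + U L (N + 1) (2 * a * A + i) (b * A + j)|) +
          ∑ i ∈ range A, ∑ j ∈ range A, |α + U L (N + 1) ((2 * a + 1) * A + i) (b * A + j)| := by
        intro b _
        have := heven a b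
        have := hodd a b
        linarith
      have := card_nsmul_le_sum _ _ _ h2
      rwa [card_range, nsmul_eq_mul] at this
    have htot : (M : ℝ) * ((L : ℝ) * (((N : ℝ) + 1) * (A * A))) ≤ ∑ a ∈ range L, F a := by
      have h7 : ∑ a ∈ range L, F a = ∑ a ∈ range M, (F (2 * a) + F (2 * a + 1)) := by
        rw [hM]
        exact D1c_pair F M
      rw [h7]
      have := card_nsmul_le_sum (range M) (fun a => F (2 * a) + F (2 * a + 1)) _
        (fun a _ => hFb a)
      rwa [card_range, nsmul_eq_mul] at this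
    have hLr : (L : ℝ) = 2 * M := by rw [hM]; push_cast; ring
    have hMr : (M : ℝ) = L / 2 := by rw [hLr]; ring
    rw [hF] at htot
    refine le_trans (le_of_eq ?_) htot
    rw [hMr, hAr, show 2 * (N + 1) = N + N + 2 by ring]
    simp only [pow_add]
    push_cast
    ring

end Pool.Agent.R363.LF
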