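import Pool.Agent.R363.LF.Stm

/-! Piece D2: the main identity, by induction (second copy). -/

set_option autoImplicit false

namespace Pool.Agent.R363.LF

open MeasureTheory Finset

namespace D2b

/-- the summand -/
noncomputable def ff (L N : ℕ) (p q : ℕ → ℕ → ℝ) (i j : ℕ) : ℝ :=
  U L N i j * ((p (i + 1) j - p i j) + (q i (j + 1) - q i j))
      - V L N i j * ((p (i + 1) j - p i j) - (q i (j + 1) - q i j))

/-- the sum -/
noncomputable def Phi (L N : ℕ) (p q : ℕ → ℕ → ℝ) : ℝ :=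
  ∑ i ∈ range (L ^ N), ∑ j ∈ range (L ^ N), ff L N p q i j

theorem div_blk {A a i : ℕ} (hi : i < A) : (a * A + i) / A = a := by
  rw [Nat.add_comm, Nat.add_mul_div_right _ _ (by omega), Nat.div_eq_of_lt hi, zero_add]

theorem mod_blk {A a i : ℕ} (hi : i < A) : (a * A + i) % A = i := by
  rw [Nat.add_comm, Nat.add_mul_mod_self_right, Nat.mod_eq_of_lt hi]

/-- the shifted and transposed function -/
def sh (A a b : ℕ) (q : ℕ → ℕ → ℝ) : ℕ → ℕ → ℝ := fun j i => q (a * A + i) (b * A + j)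

theorem lip_sh {C : ℝ} {q : ℕ → ℕ → ℝ} (h : Lip C q) (A a b : ℕ) : Lip C (sh A a b q) :=
  fun i j => ⟨(h (a * A + j) (b * A + i)).2, (h (a * A + j) (b * A + i)).1⟩

theorem ff_even (L N : ℕ) (p q : ℕ → ℕ → ℝ) (a b i j : ℕ) (ha : a % 2 = 0) (hi : i < L ^ N)
    (hj : j < L ^ N) :
    ff L (N + 1) p q (a * L ^ N + i) (b * L ^ N + j) =
      2 * (q (a * L ^ N + i) (b * L ^ N + (j + 1)) - q (a * L ^ N + i) (b * L ^ N + j))
        - 2 * ff L N (sh (L ^ N) a b q) (sh (L ^ N) a b p) j i := by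
  unfold ff sh
  have e1 : U L (N + 1) (a * L ^ N + i) (b * L ^ N + j) = 1 - 2 * U L N j i := by
    show (if ((a * L ^ N + i) / L ^ N) % 2 = 0 then
      1 - 2 * U L N ((b * L ^ N + j) % L ^ N) ((a * L ^ N + i) % L ^ N) else -1) = _
    rw [div_blk hi, mod_blk hi, mod_blk hj, if_pos ha]
  have e2 : V L (N + 1) (a * L ^ N + i) (b * L ^ N + j) = 1 + 2 * V L N j i := by
    show (if ((a * L ^ N + i) / L ^ N) % 2 = 0 then
      1 + 2 * V L N ((b * L ^ N + j) % L ^ N) ((a * L ^ N + i) % L ^ N) else -1) = _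
    rw [div_blk hi, mod_blk hi, mod_blk hj, if_pos ha]
  rw [e1, e2]
  have e3 : a * L ^ N + i + 1 = a * L ^ N + (i + 1) := rfl
  have e4 : b * L ^ N + j + 1 = b * L ^ N + (j + 1) := rfl
  rw [e3, e4]
  ring

theorem ff_odd (L N : ℕ) (p q : ℕ → ℕ → ℝ) (a b i j : ℕ) (ha : a % 2 = 1) (hi : i < L ^ N) :
    ff L (N + 1) p q (a * L ^ N + i) (b * L ^ N + j) =
      - (2 * (q (a * L ^ N + i) (b * L ^ N + (j + 1)) - q (a * L ^ N + i) (b * L ^ N + j))) := by
  unfold ff
  have e1 : U L (N + 1) (a * L ^ N + i) (b * L ^ N + j) = -1 := by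
    show (if ((a * L ^ N + i) / L ^ N) % 2 = 0 then
      1 - 2 * U L N ((b * L ^ N + j) % L ^ N) ((a * L ^ N + i) % L ^ N) else -1) = _
    rw [div_blk hi, if_neg (by omega)]
  have e2 : V L (N + 1) (a * L ^ N + i) (b * L ^ N + j) = -1 := by
    show (if ((a * L ^ N + i) / L ^ N) % 2 = 0 then
      1 + 2 * V L N ((b * L ^ N + j) % L ^ N) ((a * L ^ N + i) % L ^ N) else -1) = _
    rw [div_blk hi, if_neg (by omega)]
  rw [e1, e2]
  have e4 : b * L ^ N + j + 1 = b * L ^ N + (j + 1) := rfl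
  rw [e4]
  ring

theorem sum_even_odd (F : ℕ → ℝ) (l : ℕ) :
    ∑ a ∈ range (2 * l), F a = ∑ c ∈ range l, (F (2 * c) + F (2 * c + 1)) := by
  induction l with
  | zero => simp
  | succ l ih =>
    rw [show 2 * (l + 1) = 2 * l + 1 + 1 from rfl, Finset.sum_range_succ, Finset.sum_range_succ, ih,
      Finset.sum_range_succ, add_assoc]

/-- differences over a distance -/
theorem lip_dist {C : ℝ} {q : ℕ → ℕ → ℝ} (h : Lip C q) (x y n : ℕ) :
    |q x y - q (x + n) y| ≤ C * n := by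
  induction n with
  | zero => simp
  | succ n ih =>
    have h1 := (h (x + n) y).1
    rw [abs_sub_comm] at h1
    have h2 : q x y - q (x + (n + 1)) y = (q x y - q (x + n) y) + (q (x + n) y - q (x + n + 1) y) := by
      rw [show x + (n + 1) = x + n + 1 from rfl]; ring
    rw [h2]
    refine (abs_add_le _ _).trans ?_
    push_cast
    linarith

/-- telescoping in a row of blocks -/
theorem tele (w : ℕ → ℝ) (A L : ℕ) :
    ∑ b ∈ range L, ∑ j ∈ range A, (w (b * A + (j + 1)) - w (b * A + j)) = w (L * A) - w 0 := by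
  have h1 : ∀ b ∈ range L, ∑ j ∈ range A, (w (b * A + (j + 1)) - w (b * A + j)) =
      w ((b + 1) * A) - w (b * A) := by
    intro b _
    rw [Finset.sum_range_sub (fun j => w (b * A + j)) A, add_zero, Nat.succ_mul]
  rw [Finset.sum_congr rfl h1, Finset.sum_range_sub (fun b => w (b * A)) L, zero_mul]

theorem row {C : ℝ} {q : ℕ → ℕ → ℝ} (h : Lip C q) (A L c : ℕ) :
    |∑ b ∈ range L, ∑ i ∈ range A, ∑ j ∈ range A,
      ((q (2 * c * A + i) (b * A + (j + 1)) - q (2 * c * A + i) (b * A + j)) -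
       (q ((2 * c + 1) * A + i) (b * A + (j + 1)) - q ((2 * c + 1) * A + i) (b * A + j)))|
      ≤ 2 * C * A * A := by
  rw [Finset.sum_comm]
  have h1 : ∀ i ∈ range A, |∑ b ∈ range L, ∑ j ∈ range A,
      ((q (2 * c * A + i) (b * A + (j + 1)) - q (2 * c * A + i) (b * A + j)) -
       (q ((2 * c + 1) * A + i) (b * A + (j + 1)) - q ((2 * c + 1) * A + i) (b * A + j)))| ≤
      2 * C * A := by
    intro i _
    have h2 := tele (fun y => q (2 * c * A + i) y - q ((2 * c + 1) * A + i) y) A L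
    have h3 : ∑ b ∈ range L, ∑ j ∈ range A,
      ((q (2 * c * A + i) (b * A + (j + 1)) - q (2 * c * A + i) (b * A + j)) -
       (q ((2 * c + 1) * A + i) (b * A + (j + 1)) - q ((2 * c + 1) * A + i) (b * A + j))) =
       ∑ b ∈ range L, ∑ j ∈ range A,
        ((fun y => q (2 * c * A + i) y - q ((2 * c + 1) * A + i) y) (b * A + (j + 1)) -
        (fun y => q (2 * c * A + i) y - q ((2 * c + 1) * A + i) y) (b * A + j)) := by
      refine Finset.sum_congr rfl fun b _ => Finset.sum_congr rfl fun j _ => ?_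
      ring
    rw [h3, h2]
    have e : (2 * c + 1) * A + i = (2 * c * A + i) + A := by ring
    rw [e]
    have a1 := lip_dist h (2 * c * A + i) (L * A) A
    have a2 := lip_dist h (2 * c * A + i) 0 A
    refine (abs_sub _ _).trans ?_
    linarith
  refine (Finset.abs_sum_le_sum_abs _ _).trans ((Finset.sum_le_sum h1).trans ?_)
  rw [Finset.sum_const, card_range, nsmul_eq_mul]
  exact le_of_eq (by ring)

/-- the sum over two consecutive rows of blocks -/
theorem pair (L N : ℕ) (p q : ℕ → ℕ → ℝ) (c b : ℕ) :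
    (∑ i ∈ range (L ^ N), ∑ j ∈ range (L ^ N),
      ff L (N + 1) p q (2 * c * L ^ N + i) (b * L ^ N + j)) +
    (∑ i ∈ range (L ^ N), ∑ j ∈ range (L ^ N),
      ff L (N + 1) p q ((2 * c + 1) * L ^ N + i) (b * L ^ N + j)) =
    2 * (∑ i ∈ range (L ^ N), ∑ j ∈ range (L ^ N),
      ((q (2 * c * L ^ N + i) (b * L ^ N + (j + 1)) - q (2 * c * L ^ N + i) (b * L ^ N + j)) -
       (q ((2 * c + 1) * L ^ N + i) (b * L ^ N + (j + 1)) -
        q ((2 * c + 1) * L ^ N + i) (b * L ^ N + j)))) -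
    2 * Phi L N (sh (L ^ N) (2 * c) b q) (sh (L ^ N) (2 * c) b p) := by
  unfold Phi
  rw [Finset.sum_comm (s := range (L ^ N)) (t := range (L ^ N))
    (f := fun i j => ff L N (sh (L ^ N) (2 * c) b q) (sh (L ^ N) (2 * c) b p) i j)]
  rw [← Finset.sum_add_distrib, Finset.mul_sum, Finset.mul_sum, ← Finset.sum_sub_distrib]
  refine Finset.sum_congr rfl fun i hi => ?_
  rw [← Finset.sum_add_distrib, Finset.mul_sum, Finset.mul_sum, ← Finset.sum_sub_distrib]
  refine Finset.sum_congr rfl fun j hj => ?_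
  rw [Finset.mem_range] at hi hj
  rw [ff_even L N p q (2 * c) b i j (by omega) hi hj, ff_odd L N p q (2 * c + 1) b i j (by omega) hi]
  ring

end D2b

open D2b in
theorem t_D2 (h0 : S_D0) : S_D2 := by
  intro L N
  induction N with
  | zero =>
    intro hL hL2 C p q hC hp hq
    simp [U, V]
  | succ N ih =>
    intro hL hL2 C p q hC hp hq
    obtain ⟨l, hl⟩ : ∃ l, L = 2 * l := ⟨L / 2, by omega⟩
    have hsum : (∑ i ∈ range (L ^ (N + 1)), ∑ j ∈ range (L ^ (N + 1)), ff L (N + 1) p q i j) =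
        (∑ c ∈ range l, 2 * (∑ b ∈ range L, ∑ i ∈ range (L ^ N), ∑ j ∈ range (L ^ N),
      ((q (2 * c * L ^ N + i) (b * L ^ N + (j + 1)) - q (2 * c * L ^ N + i) (b * L ^ N + j)) -
       (q ((2 * c + 1) * L ^ N + i) (b * L ^ N + (j + 1)) -
        q ((2 * c + 1) * L ^ N + i) (b * L ^ N + j))))) -
      ∑ c ∈ range l, ∑ b ∈ range L,
        2 * Phi L N (sh (L ^ N) (2 * c) b q) (sh (L ^ N) (2 * c) b p) := by
      rw [show L ^ (N + 1) = L * L ^ N from pow_succ' L N, h0 (ff L (N + 1) p q) (L ^ N) L]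
      rw [show (range L : Finset ℕ) = range (2 * l) by rw [← hl], sum_even_odd,
        ← Finset.sum_sub_distrib]
      refine Finset.sum_congr rfl fun c _ => ?_
      rw [← Finset.sum_add_distrib, Finset.mul_sum, ← Finset.sum_sub_distrib]
      refine Finset.sum_congr rfl fun b _ => ?_
      exact pair L N p q c b
    have hA : (0 : ℝ) ≤ (L : ℝ) ^ N := by positivity
    have hLp : (0 : ℝ) < L := by exact_mod_cast (by omega : 0 < L)
    have hLl : (L : ℝ) = 2 * l := by exact_mod_cast hl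
    have b1 : |∑ c ∈ range l, 2 * (∑ b ∈ range L, ∑ i ∈ range (L ^ N), ∑ j ∈ range (L ^ N),
      ((q (2 * c * L ^ N + i) (b * L ^ N + (j + 1)) - q (2 * c * L ^ N + i) (b * L ^ N + j)) -
       (q ((2 * c + 1) * L ^ N + i) (b * L ^ N + (j + 1)) -
        q ((2 * c + 1) * L ^ N + i) (b * L ^ N + j))))| ≤
        l * (2 * (2 * C * (L : ℝ) ^ N * (L : ℝ) ^ N)) := by
      refine (Finset.abs_sum_le_sum_abs _ _).trans ?_
      have : ∀ c ∈ range l, |2 * (∑ b ∈ range L, ∑ i ∈ range (L ^ N), ∑ j ∈ range (L ^ N),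
      ((q (2 * c * L ^ N + i) (b * L ^ N + (j + 1)) - q (2 * c * L ^ N + i) (b * L ^ N + j)) -
       (q ((2 * c + 1) * L ^ N + i) (b * L ^ N + (j + 1)) -
        q ((2 * c + 1) * L ^ N + i) (b * L ^ N + j))))| ≤ 2 * (2 * C * (L : ℝ) ^ N * (L : ℝ) ^ N) := by
        intro c _
        rw [abs_mul, abs_two]
        have := row hq (L ^ N) L c
        push_cast at this
        linarith
      refine (Finset.sum_le_sum this).trans ?_
      rw [Finset.sum_const, card_range, nsmul_eq_mul]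
    have b2 : |∑ c ∈ range l, ∑ b ∈ range L,
        2 * Phi L N (sh (L ^ N) (2 * c) b q) (sh (L ^ N) (2 * c) b p)| * L ≤
        l * (L * (2 * (2 * C * N * (L : ℝ) ^ (2 * N)))) := by
      have h1 : ∀ c ∈ range l, ∀ b ∈ range L,
          |2 * Phi L N (sh (L ^ N) (2 * c) b q) (sh (L ^ N) (2 * c) b p)| * L ≤
          2 * (2 * C * N * (L : ℝ) ^ (2 * N)) := by
        intro c _ b _
        have := ih hL hL2 C (sh (L ^ N) (2 * c) b q) (sh (L ^ N) (2 * c) b p) hC
          (lip_sh hq _ _ _) (lip_sh hp _ _ _)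
        change |Phi L N (sh (L ^ N) (2 * c) b q) (sh (L ^ N) (2 * c) b p)| * (L : ℝ) ≤ _ at this
        rw [abs_mul, abs_two]
        linarith
      calc |∑ c ∈ range l, ∑ b ∈ range L,
          2 * Phi L N (sh (L ^ N) (2 * c) b q) (sh (L ^ N) (2 * c) b p)| * L
          ≤ (∑ c ∈ range l, ∑ b ∈ range L,
          |2 * Phi L N (sh (L ^ N) (2 * c) b q) (sh (L ^ N) (2 * c) b p)|) * L := by
            gcongr
            refine (Finset.abs_sum_le_sum_abs _ _).trans (Finset.sum_le_sum fun c _ => ?_)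
            exact Finset.abs_sum_le_sum_abs _ _
        _ = ∑ c ∈ range l, ∑ b ∈ range L,
          |2 * Phi L N (sh (L ^ N) (2 * c) b q) (sh (L ^ N) (2 * c) b p)| * L := by
            rw [Finset.sum_mul]
            refine Finset.sum_congr rfl fun c _ => ?_
            rw [Finset.sum_mul]
        _ ≤ ∑ c ∈ range l, ∑ b ∈ range L, 2 * (2 * C * N * (L : ℝ) ^ (2 * N)) :=
            Finset.sum_le_sum fun c hc => Finset.sum_le_sum fun b hb => h1 c hc b hb
        _ = _ := by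
            rw [Finset.sum_const, Finset.sum_const, card_range, card_range, nsmul_eq_mul,
              nsmul_eq_mul]
    change |∑ i ∈ range (L ^ (N + 1)), ∑ j ∈ range (L ^ (N + 1)), ff L (N + 1) p q i j| * (L : ℝ) ≤ _
    rw [hsum]
    set S1 := ∑ c ∈ range l, 2 * (∑ b ∈ range L, ∑ i ∈ range (L ^ N), ∑ j ∈ range (L ^ N),
      ((q (2 * c * L ^ N + i) (b * L ^ N + (j + 1)) - q (2 * c * L ^ N + i) (b * L ^ N + j)) -
       (q ((2 * c + 1) * L ^ N + i) (b * L ^ N + (j + 1)) -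
        q ((2 * c + 1) * L ^ N + i) (b * L ^ N + j))))
    set S2 := ∑ c ∈ range l, ∑ b ∈ range L,
        2 * Phi L N (sh (L ^ N) (2 * c) b q) (sh (L ^ N) (2 * c) b p)
    have h3 : |S1 - S2| * L ≤ |S1| * L + |S2| * L := by
      rw [← add_mul]
      exact mul_le_mul_of_nonneg_right (abs_sub _ _) hLp.le
    have h4 : |S1| * L ≤ l * (2 * (2 * C * (L : ℝ) ^ N * (L : ℝ) ^ N)) * L :=
      mul_le_mul_of_nonneg_right b1 hLp.le
    have h5 : (l : ℝ) * (2 * (2 * C * (L : ℝ) ^ N * (L : ℝ) ^ N)) * L +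
        l * (L * (2 * (2 * C * N * (L : ℝ) ^ (2 * N)))) =
        2 * C * ((N + 1 : ℕ) : ℝ) * (L : ℝ) ^ (2 * (N + 1)) := by
      have e1 : (L : ℝ) ^ (2 * (N + 1)) = (L : ℝ) ^ N * (L : ℝ) ^ N * L * (2 * l) := by
        rw [← hLl]; ring
      have e2 : (L : ℝ) ^ (2 * N) = (L : ℝ) ^ N * (L : ℝ) ^ N := by ring
      rw [e1, e2]
      push_cast
      ring
    linarith

end Pool.Agent.R363.LF
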