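import Pool.Agent.R363.LF.Stm

namespace Pool.Agent.R363.LF

open MeasureTheory Finset

namespace TAux

noncomputable def ev {n m : ℕ} (v : Fin m → E n) : Form n m →L[ℝ] ℝ :=
  LinearMap.mkContinuous
    { toFun := fun f => f v
      map_add' := fun _ _ => rfl
      map_smul' := fun _ _ => rfl } (∏ i, ‖v i‖) (fun f => by
        have := f.le_opNorm v
        rw [mul_comm]
        exact this)

lemma ev_apply {n m : ℕ} (v : Fin m → E n) (f : Form n m) : ev v f = f v := rfl

noncomputable def J (n : ℕ) : (Fin n → ℝ) →L[ℝ] E n :=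
  ((EuclideanSpace.equiv (Fin n) ℝ).symm : (Fin n → ℝ) ≃L[ℝ] E n).toContinuousLinearMap

lemma J_apply (n : ℕ) (x : Fin n → ℝ) : J n x = WithLp.toLp 2 x := rfl

lemma J_single (n : ℕ) (l : Fin n) (t : ℝ) : J n (Pi.single l t) = EuclideanSpace.single l t := rfl

end TAux

open TAux

theorem t_T : S_T := by
  intro k φ C hφ hL
  obtain ⟨F, hF⟩ : ∃ F : (Fin (k + 2) → ℝ) → (Fin (k + 2) → ℝ), F = fun x (i : Fin (k + 2)) =>
    (-1 : ℝ) ^ (i : ℕ) * ev (fun a => EuclideanSpace.single (i.succAbove a) (1 : ℝ)) (φ (J (k + 2) x)) :=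
    ⟨_, rfl⟩
  have hd : ∀ x, HasFDerivAt F (ContinuousLinearMap.pi fun i : Fin (k + 2) =>
      (-1 : ℝ) ^ (i : ℕ) • (ev (fun a => EuclideanSpace.single (i.succAbove a) (1 : ℝ))).comp
        ((fderiv ℝ φ (J (k + 2) x)).comp (J (k + 2)))) x := by
    intro x
    rw [hF, hasFDerivAt_pi]
    intro i
    have h1 : HasFDerivAt φ (fderiv ℝ φ (J (k + 2) x)) (J (k + 2) x) :=
      (hφ.differentiable (by norm_num) _).hasFDerivAt
    have h2 := (ev (fun a => EuclideanSpace.single (i.succAbove a) (1 : ℝ))).hasFDerivAt.comp x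
      (h1.comp x (J (k + 2)).hasFDerivAt)
    exact h2.const_mul _
  refine ⟨F, ?_, ?_, ?_⟩
  · rw [hF]
    refine contDiff_pi.2 fun i => ?_
    exact contDiff_const.mul ((ev (fun a => EuclideanSpace.single (i.succAbove a) (1 : ℝ))).contDiff.comp
      (hφ.comp (J (k + 2)).contDiff))
  · intro i l x t
    rw [hF]
    simp only
    rw [← mul_sub, abs_mul, abs_pow, abs_neg, abs_one, one_pow, one_mul, ev_apply, ev_apply]
    refine (hL i.succAbove (Fin.strictMono_succAbove i) _ _).trans (le_of_eq ?_)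
    rw [map_add, add_sub_cancel_left, J_single, EuclideanSpace.norm_single, Real.norm_eq_abs]
  · intro x
    unfold divF extDeriv
    rw [(hd x).fderiv, ContinuousAlternatingMap.alternatizeUncurryFin_apply]
    refine sum_congr rfl fun l _ => ?_
    have e1 : (ContinuousLinearMap.pi fun i : Fin (k + 2) =>
      (-1 : ℝ) ^ (i : ℕ) • (ev (fun a => EuclideanSpace.single (i.succAbove a) (1 : ℝ))).comp
        ((fderiv ℝ φ (J (k + 2) x)).comp (J (k + 2)))) (Pi.single l 1) l =
      (-1 : ℝ) ^ (l : ℕ) * (fderiv ℝ φ (WithLp.toLp 2 x) (EuclideanSpace.single l 1))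
        (fun a => EuclideanSpace.single (l.succAbove a) (1 : ℝ)) := rfl
    have e2 : (l.removeNth fun a => EuclideanSpace.single a (1:ℝ) : Fin (k + 1) → E (k + 2)) =
      fun a => EuclideanSpace.single (l.succAbove a) (1 : ℝ) := rfl
    rw [e1, e2]
    simp [zsmul_eq_mul]

end Pool.Agent.R363.LF
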