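import Pool.Agent.R363.LF.Stm

/-! Piece VOL of project LF (MP_507414_an), second copy. -/

namespace Pool.Agent.R363.LF

open MeasureTheory Finset

theorem t_Vol : S_Vol := by
  intro n
  let b : OrthonormalBasis (Fin n) ℝ (E n) := EuclideanSpace.basisFun (Fin n) ℝ
  have hb : ⇑b.toBasis = fun a => (EuclideanSpace.single a (1 : ℝ) : E n) := by
    funext a
    simp [b]
  haveI : Fact (Module.finrank ℝ (E n) = n) := ⟨by simp [E]⟩
  have hbd : ∀ m : Fin n → E n, ‖b.toBasis.det m‖ ≤ 1 * ∏ i, ‖m i‖ := by
    intro m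
    rw [one_mul, Real.norm_eq_abs,
      ← Orientation.volumeForm_robust (b.toBasis.orientation) b rfl]
    exact Orientation.abs_volumeForm_apply_le _ m
  refine ⟨AlternatingMap.mkContinuous b.toBasis.det 1 hbd, ?_, ?_, ?_⟩
  · exact AlternatingMap.mkContinuous_norm_le _ zero_le_one _
  · rw [← hb]
    exact Module.Basis.det_self _
  · intro w
    have h := AlternatingMap.eq_smul_basis_det b.toBasis w.toAlternatingMap
    ext m
    have h2 := congrArg (fun f => f m) h
    rw [hb] at h2
    exact h2

end Pool.Agent.R363.LF
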